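import Pool.Agent.H97.PRK.Targets

/-!
# MP_e37c09_lc, small sets of points of a club: the sets `B n` are null (helper88)
-/

open _root_.HD HD.PRK
open Ordinal Cardinal Order Set
open scoped ZFSet

universe u

namespace Pool.Agent.H88.PRK

theorem L3A_mono {μ ρ : Ordinal.{u}} {P Q : ZFSet.{u} → Prop} (h : PosX μ ρ P)
    (hPQ : ∀ x, P x → Q x) : PosX μ ρ Q := fun C hC => by
  obtain ⟨x, hx, hp⟩ := h C hC
  exact ⟨x, hx, hPQ x hp⟩

theorem L3A_ex {μ : Ordinal.{u}} {K : Cardinal.{u}} (hK : ℵ₀ < K) {P : ZFSet.{u} → Prop}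
    (h : PosX μ K.ord P) : ∃ x, P x := by
  have hl : IsSuccLimit K.ord := Cardinal.isSuccLimit_ord hK.le
  obtain ⟨x, -, hx⟩ := h Set.univ
    ⟨fun a ha => ⟨succ a, hl.succ_lt ha, lt_succ a, trivial⟩, fun _ _ _ _ => trivial⟩
  exact ⟨x, hx⟩

/-- a difference of two sections of positive classes is a splitting point -/
theorem L3A_spl {μ ρ : Ordinal.{u}} {F x y : ZFSet.{u}} {i : Ordinal.{u}}
    (hx : PosX μ ρ fun x' => Agr F x' (succ i) (sec F x))
    (hy : PosX μ ρ fun x' => Agr F x' (succ i) (sec F y))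
    (ha : Agr F x i (sec F y)) (h1 : i ∈ sec F x) (h2 : i ∉ sec F y) : Spl μ ρ F i := by
  refine ⟨sec F y, L3A_mono hx fun z hz => ⟨fun a hai => ?_, ?_⟩,
    L3A_mono hy fun z hz => ⟨fun a hai => ?_, ?_⟩⟩
  · exact (hz a (hai.trans (lt_succ i))).trans (ha a hai)
  · exact (hz i (lt_succ i)).2 h1
  · exact hz a (hai.trans (lt_succ i))
  · exact fun h => h2 ((hz i (lt_succ i)).1 h)

theorem L3A_agr_symm {F x y : ZFSet.{u}} {i : Ordinal.{u}} (h : Agr F x i (sec F y)) :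
    Agr F y i (sec F x) := fun a ha => (h a ha).symm

theorem L3A_card {D K : Cardinal.{u}} (hD : D.IsStrongLimit) (hD0 : ℵ₀ < D) (hDK : D < K)
    {S : Set Ordinal.{u}} (hS : Few D.ord S) {n : Ordinal.{u}} (hn : n < K.ord) :
    #(↥(Iio n) ⊕ Set ↥(S ∪ {p | succ p = n})) < Cardinal.lift.{u + 1} K := by
  have hD0' : ℵ₀ ≤ Cardinal.lift.{u + 1} D := by
    rw [Cardinal.aleph0_le_lift]
    exact hD0.le
  have hK0' : ℵ₀ ≤ Cardinal.lift.{u + 1} K := by
    rw [Cardinal.aleph0_le_lift]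
    exact (hD0.trans hDK).le
  have h1 : #↥(Iio n) < Cardinal.lift.{u + 1} K := by
    rw [Cardinal.mk_Iio_ordinal, Cardinal.lift_lt]
    exact Cardinal.lt_ord.1 hn
  have h2 : #↥(S ∪ {p | succ p = n}) < Cardinal.lift.{u + 1} D := by
    refine (Cardinal.mk_union_le _ _).trans_lt (Cardinal.add_lt_of_lt hD0' (few_iff.1 hS) ?_)
    refine lt_of_le_of_lt ?_ (Cardinal.one_lt_aleph0.trans_le hD0')
    rw [Cardinal.mk_le_one_iff_set_subsingleton]
    intro a ha b hb
    exact succ_injective (ha.trans hb.symm)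
  have h3 : #(Set ↥(S ∪ {p | succ p = n})) < Cardinal.lift.{u + 1} K := by
    rw [Cardinal.mk_set]
    obtain ⟨c, hc⟩ := Cardinal.mem_range_lift_of_le h2.le
    rw [← hc, Cardinal.lift_lt] at h2
    rw [← hc, ← Cardinal.lift_two_power, Cardinal.lift_lt]
    exact (hD.isStrongPrelimit h2).trans hDK
  rw [Cardinal.mk_sum, Cardinal.lift_id, Cardinal.lift_id]
  exact Cardinal.add_lt_of_lt hK0' h1 h3

theorem pf_L3A (h : T_NU1.{u}) : T_L3A.{u} := by
  intro D K _ hDs hD0 hKr hDK μ F hF n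
  have hK0 : ℵ₀ < K := hD0.trans hDK
  induction n using WellFoundedLT.induction with
  | _ n ih =>
  intro hn
  set B : Ordinal.{u} → ZFSet.{u} → Prop := fun m x =>
    ¬ PosX μ K.ord fun x' => Agr F x' m (sec F x) with hB
  set S' : Set Ordinal.{u} := SpS μ K.ord F ∪ {p | succ p = n} with hS'
  let P : (↥(Iio n) ⊕ Set ↥S') → ZFSet.{u} → Prop := fun i => Sum.elim
    (fun m x => B m.1 x)
    (fun q x => B n x ∧ (∀ m < n, ¬ B m x) ∧ ∀ s : ↥S', (s.1 ∈ sec F x ↔ s ∈ q)) i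
  have hcard := L3A_card hDs hD0 hDK hF hn
  have hnull : ∀ i, ¬ PosX μ K.ord (P i) := by
    rintro (m | q)
    · exact ih m.1 m.2 (lt_trans m.2 hn)
    · intro hpos
      obtain ⟨x1, h1n, h1m, h1q⟩ := L3A_ex hK0 hpos
      refine h1n (L3A_mono hpos ?_)
      rintro x ⟨-, hxm, hxq⟩ i hi
      induction i using WellFoundedLT.induction with
      | _ i ihi =>
      have hagr : Agr F x i (sec F x1) := fun a ha => ihi a ha (ha.trans hi)
      by_contra hne
      have hiS : i ∉ S' := by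
        intro hiS
        exact hne ((hxq ⟨i, hiS⟩).trans (h1q ⟨i, hiS⟩).symm)
      have hsi : succ i < n := by
        refine lt_of_le_of_ne (succ_le_of_lt hi) ?_
        intro he
        exact hiS (Or.inr he)
      have p1 : PosX μ K.ord fun x' => Agr F x' (succ i) (sec F x) := not_not.1 (hxm _ hsi)
      have p2 : PosX μ K.ord fun x' => Agr F x' (succ i) (sec F x1) := not_not.1 (h1m _ hsi)
      refine hiS (Or.inl ⟨hi.trans hn, ?_⟩)
      by_cases hix : i ∈ sec F x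
      · have hix1 : i ∉ sec F x1 := fun h' => hne ⟨fun _ => h', fun _ => hix⟩
        exact L3A_spl p1 p2 hagr hix hix1
      · have hix1 : i ∈ sec F x1 := by
          by_contra h'
          exact hne ⟨fun h2 => absurd h2 hix, fun h2 => absurd h2 h'⟩
        exact L3A_spl p2 p1 (L3A_agr_symm hagr) hix1 hix
  refine fun hpos => h μ K hKr hK0 _ P hcard hnull (L3A_mono hpos ?_)
  intro x hx
  by_cases hm : ∃ m < n, B m x
  · obtain ⟨m, hmn, hm⟩ := hm
    exact ⟨Sum.inl ⟨m, hmn⟩, hm⟩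
  · push Not at hm
    exact ⟨Sum.inr {s | s.1 ∈ sec F x}, hx, hm, fun s => Iff.rfl⟩

end Pool.Agent.H88.PRK
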